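import Pool.Agent.U173.PS.Sys
import Pool.Agent.U231.FR.Re

/-!
# Rational and numerical equivalence on products of varieties with slope fields which meet pairwise in
# totally real fields
-/

set_option autoImplicit false

open Finset Polynomial CategoryTheory AlgebraicGeometry

namespace Pool.Agent.U173.PS

open Pool.Agent.H914 Pool.Agent.H914.VarClass Pool.Agent.H914.VarClass.Obj Pool.Agent.W492.BB
  Pool.Agent.W484.CK Pool.Agent.U231.FR.Base Pool.Agent.U173.SL Pool.Agent.TH121.KT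
  Pool.Agent.Y154.BQ Pool.Agent.U231.FR.Re

theorem re_main {κ : Type} [Field κ] {𝒱 : VarClass κ} {A : TheoryData.{0, 0, 0} 𝒱 ℚ} [IsChow A]
    {K : Type} [Field K] [IsAlgClosed K] [CharZero K] {H : WeilTheoryData.{0, 0, 0} A K} [IsWeil H]
    {I : Type} {p m : ℕ} [Fact p.Prime] {ι : Qb →+* PadicAlgCl p} {E M : IntermediateField ℚ Qb}
    {L : I → IntermediateField ℚ Qb} {F : ∀ X : 𝒱.Obj, X ⟶ X} {X : I → 𝒱.Obj} {Z : 𝒱.Obj}
    (h : IsSlopeFamily p m ι E M L H F X Z)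
    (hnil : ∀ l : List I, Nilpotence H (productOf X Z l)) (l : List I) (hl : l.Nodup) :
    Conclusions H X Z l := by
  have hpol := h.polarized
  obtain ⟨S, hsys⟩ := cs_of h hnil
  refine ⟨fun n => ?_, ?_, ?_, fun i hi => ?_⟩
  · rw [Pool.Agent.U231.FR.Pa.tw_eq, Pool.Agent.U231.FR.Pa.dims_eq]
    exact hsys.perfect_tw hpol hl n
  · rw [Pool.Agent.U231.FR.Pa.tw_eq]
    exact hsys.ratEqNum_tw hl
  · rw [Pool.Agent.U231.FR.Pa.tw_eq]
    clear hnil
    induction l with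
    | nil => exact Iff.rfl
    | cons i l ih =>
      rw [List.nodup_cons] at hl
      obtain ⟨J, hJ, deg, D, E, h1, h2, h3⟩ := hsys.chow_step hl.1 hl.2
      rw [← ih hl.2]
      exact Pool.Agent.W484.CH.ratEqHom_iff h1 h3
  · rw [Pool.Agent.U231.FR.Pa.tw_eq]
    obtain ⟨J, hJ, deg, D, E, h1, h2, h3⟩ := hsys.chow_step hi hl
    refine ⟨J, hJ, deg, D, h1.left, fun i y hy => ?_⟩
    obtain ⟨z, ⟨hz1, hz2⟩, hz3⟩ := h3 i y hy
    have h4 : ∀ z' : J → A.A (Pool.Agent.N876.CG.tw X Z l), ∑ j, times A (D j) (z' j) =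
        ∑ j, (Pool.Agent.W484.CH.chowData A).act
          (Pool.Agent.W484.CH.extBy A (Pool.Agent.N876.CG.tw X Z l) (D j)) (z' j) := fun z' =>
      Finset.sum_congr rfl fun j _ => (Pool.Agent.W484.CH.act_extBy A (D j) (z' j)).symm
    refine ⟨z, ⟨hz1, ?_⟩, fun z' hz' => hz3 z' ⟨hz'.1, ?_⟩⟩
    · rw [h4 z]
      exact hz2
    · rw [← h4 z']
      exact hz'.2

end Pool.Agent.U173.PS
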