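import Pool.Agent.U173.SL.FieldDefs

/-!
# Weil numbers with slope fields, which are not supersingular: definitions
-/

set_option autoImplicit false

open Polynomial

namespace Pool.Agent.U173.PS

open Pool.Agent.U173.SL

/-- `L` is a slope field of the algebraic number `ν` (at the place `ι` above `p`): the absolute values
at `ι` of the conjugates of `ν` are not changed by the automorphisms which fix all elements of
`L`. -/
def HasSlopesIn (p : ℕ) [Fact p.Prime] (ι : AlgebraicClosure ℚ →+* PadicAlgCl p)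
    (L : IntermediateField ℚ (AlgebraicClosure ℚ)) {Ω : Type*} [Field Ω] [CharZero Ω] (ν : Ω) :
    Prop :=
  IsIntegral ℚ ν ∧ ∀ h : AlgebraicClosure ℚ ≃ₐ[ℚ] AlgebraicClosure ℚ, (∀ z ∈ L, h z = z) →
    ∀ x : AlgebraicClosure ℚ, aeval x (minpoly ℚ ν) = 0 → ‖ι (h x)‖ = ‖ι x‖

/-- `ν` is a Weil number for `p ^ m` with slope field `L`, and no power of `ν` is a power of `p`
(it is not supersingular). -/
structure IsGoodNumber (p m : ℕ) [Fact p.Prime] (ι : AlgebraicClosure ℚ →+* PadicAlgCl p)
    (L : IntermediateField ℚ (AlgebraicClosure ℚ)) {Ω : Type*} [Field Ω] [CharZero Ω] (ν : Ω) :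
    Prop where
  slopes : HasSlopesIn p ι L ν
  weil : ∃ w, IsWeilNumber (p ^ m) w ν
  not_supersingular : ∀ (N : ℕ) (b : ℤ), 0 < N → ν ^ N ≠ (p : Ω) ^ b

end Pool.Agent.U173.PS
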