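import Pool.Agent.U173.SL.Pair
import Pool.Agent.U173.PS.NumDefs

/-!
# No resonances between Weil numbers with slope fields which meet pairwise in totally real fields
-/

set_option autoImplicit false

open Polynomial

namespace Pool.Agent.U173.PS

open Pool.Agent.U173.SL Pool.Agent.TH121.KT

variable {p : ℕ} [Fact p.Prime] {ι : Qb →+* PadicAlgCl p}

theorem exists_preimage {Ω : Type*} [Field Ω] [CharZero Ω] (τ : Qb →+* Ω)
    {L : IntermediateField ℚ Qb} {ν : Ω} (h : HasSlopesIn p ι L ν) :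
    ∃ x : Qb, τ x = ν ∧ Det ι L x := by
  obtain ⟨hint, hs⟩ := h
  obtain ⟨x, hx, hτ⟩ := exists_root τ (minpoly.ne_zero hint) (minpoly.aeval ℚ ν)
  exact ⟨x, hτ, det_of_root (Q := minpoly ℚ ν) (fun h hh β hβ => hs h hh β hβ) hx⟩

theorem det_mul_pow {M : IntermediateField ℚ Qb} {u y : Qb} (hy : Det ι M y) {N B : ℕ} (hN : 0 < N)
    {C : ℤ} (hrel : u ^ N * y ^ B = (p : Qb) ^ C) : Det ι M u := by
  have hp : p.Prime := Fact.out
  have hpn : ‖(p : PadicAlgCl p)‖ ≠ 0 := by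
    have : (p : PadicAlgCl p) ≠ 0 := by exact_mod_cast hp.ne_zero
    exact norm_ne_zero_iff.2 this
  intro h hh g
  have hnorm : ∀ g : GQ, ‖ι (g u)‖ ^ N * ‖ι (g y)‖ ^ B = ‖(p : PadicAlgCl p)‖ ^ C := by
    intro g
    rw [← norm_pow, ← norm_pow, ← norm_mul, ← map_pow, ← map_pow, ← map_pow, ← map_pow, ← map_mul,
      ← map_mul, hrel, map_zpow₀, map_zpow₀, map_natCast, map_natCast, norm_zpow]
  have h1 := hnorm g
  have h2 := hnorm (h * g)
  have h3 : ‖ι ((h * g) y)‖ = ‖ι (g y)‖ := hy h hh g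
  rw [h3, ← h1] at h2
  have h4 : ‖ι (g y)‖ ^ B ≠ 0 := by
    intro h0
    rw [h0, mul_zero] at h1
    exact zpow_ne_zero _ hpn h1.symm
  have h5 : ‖ι ((h * g) u)‖ ^ N = ‖ι (g u)‖ ^ N := mul_right_cancel₀ h4 h2
  exact (pow_left_inj₀ (norm_nonneg _) (norm_nonneg _) hN.ne').1 h5

/-- **No resonances.** -/
theorem no_relation {Ω : Type*} [Field Ω] [CharZero Ω] [IsAlgClosed Ω] {I : Type*} [DecidableEq I]
    {E M : IntermediateField ℚ Qb} {L : I → IntermediateField ℚ Qb} {s : Finset I}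
    (hL : ArePairwise E L (s : Set I)) (hEM : E ≤ M) (hM : ∀ i ∈ s, MeetInReal (L i) M)
    (hs : s.Nonempty) {m : ℕ} {α : I → Ω} (hα : ∀ i ∈ s, IsGoodNumber p m ι (L i) (α i)) {β : Ω}
    (hβ : HasSlopesIn p ι M β) {N : ℕ} (hN : 0 < N) {B : ℕ} {C : ℤ} :
    (∏ i ∈ s, α i) ^ N * β ^ B ≠ (p : Ω) ^ C := by
  classical
  intro hrel
  let τ : Qb →+* Ω := (IsAlgClosed.lift : Qb →ₐ[ℚ] Ω).toRingHom
  obtain ⟨y, hτy, hy⟩ := exists_preimage τ hβ
  have hx : ∀ i ∈ s, ∃ x : Qb, τ x = α i ∧ Det ι (L i) x := fun i hi =>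
    exists_preimage τ (hα i hi).slopes
  choose! x hτx hdet using hx
  have hw : ∀ i ∈ s, ∃ w, IsWeilNumber (p ^ m) w (x i) := fun i hi => by
    obtain ⟨w, hw⟩ := (hα i hi).weil
    exact ⟨w, weil_lift τ (hτx i hi) hw⟩
  choose! w hW using hw
  have hrel' : (∏ i ∈ s, x i) ^ N * y ^ B = (p : Qb) ^ C := by
    apply τ.injective
    rw [map_mul, map_pow, map_pow, map_prod, hτy, Finset.prod_congr rfl hτx, hrel, map_zpow₀,
      map_natCast]
  obtain ⟨i, hi⟩ := hs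
  obtain ⟨N', hN', h⟩ := core_pair (ι := ι) hL hEM hM hdet (m := fun _ => m) hW
    (det_mul_pow hy hN hrel') i hi
  refine (hα i hi).not_supersingular (2 * N') ((m * w i * N' : ℕ) : ℤ) (by positivity) ?_
  rw [← hτx i hi, ← map_pow, h, map_pow, map_natCast, zpow_natCast]

theorem hasSlopesIn_one (L : IntermediateField ℚ Qb) {Ω : Type*} [Field Ω] [CharZero Ω] :
    HasSlopesIn p ι L (1 : Ω) := by
  refine ⟨isIntegral_one, fun h _ x hx => ?_⟩
  rw [minpoly.one, map_sub, aeval_X, map_one, sub_eq_zero] at hx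
  rw [hx, map_one]

end Pool.Agent.U173.PS
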