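import Pool.Agent.U231.FR.Base
import Pool.Agent.U173.PS.NumDefs

/-!
# Families of varieties with slope fields over finite fields: definitions

The definitions of `cycleSpan`, `IsPolarized`, `productOf` are those of helper231 (`U231/FR/Base`).
-/

set_option autoImplicit false

open Polynomial CategoryTheory AlgebraicGeometry

namespace Pool.Agent.U173.PS

open Pool.Agent.H914 Pool.Agent.H914.VarClass Pool.Agent.H914.VarClass.Obj Pool.Agent.W492.BB
  Pool.Agent.W484.CK Pool.Agent.U231.FR.Base Pool.Agent.U173.SL

/-- The algebra `H` is generated, as a vector space, by the subspace `P` (the classes of algebraic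
cycles) and a subspace `T` which is stable under `φ` (the Frobenius), such that the eigenvalues of `φ`
on `T` are Weil numbers for `p ^ m` with slope field `L` and not supersingular. -/
def IsGoodAlgebra (p m : ℕ) [Fact p.Prime] (ι : AlgebraicClosure ℚ →+* PadicAlgCl p)
    (L : IntermediateField ℚ (AlgebraicClosure ℚ)) {K H : Type} [Field K] [CharZero K] [Ring H]
    [Algebra K H] (P : Submodule K H) (φ : H →ₐ[K] H) : Prop :=
  ∃ (T : Submodule K H) (hT : ∀ t ∈ T, ofHom φ t ∈ T), P ⊔ T = ⊤ ∧
    ∀ α, Module.End.HasEigenvalue ((ofHom φ).restrict hT) α → IsGoodNumber p m ι L α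

variable {κ : Type} [Field κ] {𝒱 : VarClass κ} {A : TheoryData.{0, 0, 0} 𝒱 ℚ} {K : Type} [Field K]

/-- The eigenvalues of the Frobenius `φ` on the cohomology of `Z` have the slope field `M`. -/
def HasSlopeField [CharZero K] (p : ℕ) [Fact p.Prime] (ι : AlgebraicClosure ℚ →+* PadicAlgCl p)
    (M : IntermediateField ℚ (AlgebraicClosure ℚ)) (H : WeilTheoryData.{0, 0, 0} A K) {Z : 𝒱.Obj}
    (φ : Z ⟶ Z) : Prop :=
  ∀ β, Module.End.HasEigenvalue (ofHom (H.pull φ)) β → HasSlopesIn p ι M β

/-- `F` is the Frobenius endomorphism of the varieties over the field with `p ^ m` elements; the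
varieties `X i` satisfy the Tate conjecture in the form `IsGoodAlgebra`, with slope fields `L i` which
meet pairwise in totally real fields, and `M` is a slope field of `Z` which meets all the `L i` in
totally real fields. -/
structure IsSlopeFamily [CharZero K] {I : Type} (p m : ℕ) [Fact p.Prime]
    (ι : AlgebraicClosure ℚ →+* PadicAlgCl p) (E M : IntermediateField ℚ (AlgebraicClosure ℚ))
    (L : I → IntermediateField ℚ (AlgebraicClosure ℚ)) (H : WeilTheoryData.{0, 0, 0} A K)
    (F : ∀ X : 𝒱.Obj, X ⟶ X) (X : I → 𝒱.Obj) (Z : 𝒱.Obj) : Prop where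
  pairwise : ArePairwise E L Set.univ
  le : E ≤ M
  meet : ∀ i z, z ∈ L i → z ∈ M → IsTotallyReal z
  pos : 0 < m
  standard : IsStandard H
  frobenius : ∀ X, IsFrobenius A (F X) (p ^ m)
  product : ∀ X Y, F (X.prod Y) = prodMap (F X) (F Y)
  good : ∀ i, IsGoodAlgebra p m ι (L i) (cycleSpan H (X i)) (H.pull (F (X i)))
  polarized : ∀ i, IsPolarized H (X i)
  base : HasSlopeField p ι M H (F Z)

end Pool.Agent.U173.PS
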