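import Pool.Agent.N876.CG.RelT
import Pool.Agent.N876.CG.Tower
import Pool.Agent.W484.CK.Main
import Pool.Agent.U173.PS.Num
import Pool.Agent.U173.PS.SysDefs

/-!
# Families of varieties with slope fields satisfy the hypotheses of the library `N876.CG`
-/

set_option autoImplicit false

open Finset Polynomial CategoryTheory AlgebraicGeometry

namespace Pool.Agent.U173.PS

open Pool.Agent.H914 Pool.Agent.H914.VarClass Pool.Agent.H914.VarClass.Obj Pool.Agent.W492.BB
  Pool.Agent.W484.CK Pool.Agent.U231.FR.Base Pool.Agent.U173.SL Pool.Agent.TH121.KT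

section num

variable {p : ℕ} [Fact p.Prime] {ι : Qb →+* PadicAlgCl p}

theorem minpoly_map_eq {Ω : Type*} [Field Ω] [CharZero Ω] (τ : Qb →+* Ω) (x : Qb) :
    minpoly ℚ (τ x) = minpoly ℚ x :=
  minpoly.algHom_eq τ.toRatAlgHom τ.injective x

theorem hasSlopesIn_of {Ω : Type*} [Field Ω] [CharZero Ω] (τ : Qb →+* Ω)
    {L : IntermediateField ℚ Qb} {x : Qb} (h : Det ι L x) : HasSlopesIn p ι L (τ x) := by
  refine ⟨(Algebra.IsIntegral.isIntegral (R := ℚ) x).map τ.toRatAlgHom, fun g hg y hy => ?_⟩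
  rw [minpoly_map_eq] at hy
  exact h.slopesFixed g hg y hy

theorem HasSlopesIn.mul {Ω : Type*} [Field Ω] [CharZero Ω] [IsAlgClosed Ω]
    {L : IntermediateField ℚ Qb} {a b : Ω} (ha : HasSlopesIn p ι L a) (hb : HasSlopesIn p ι L b) :
    HasSlopesIn p ι L (a * b) := by
  let τ : Qb →+* Ω := (IsAlgClosed.lift : Qb →ₐ[ℚ] Ω).toRingHom
  obtain ⟨x, hx, hdx⟩ := exists_preimage τ ha
  obtain ⟨y, hy, hdy⟩ := exists_preimage τ hb
  rw [← hx, ← hy, ← map_mul]
  exact hasSlopesIn_of τ (hdx.mul hdy)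

theorem good_ne_zero {Ω : Type*} [Field Ω] [CharZero Ω] [IsAlgClosed Ω] {m : ℕ}
    {L : IntermediateField ℚ Qb} {a : Ω} (ha : IsGoodNumber p m ι L a) : a ≠ 0 := by
  let τ : Qb →+* Ω := (IsAlgClosed.lift : Qb →ₐ[ℚ] Ω).toRingHom
  obtain ⟨x, hx, -⟩ := exists_preimage τ ha.slopes
  obtain ⟨w, hw⟩ := ha.weil
  have h1 := weil_ne_zero (weil_lift τ hx hw)
  rw [← hx]
  exact (map_ne_zero_iff τ τ.injective).2 h1

/-- **No resonances.** -/
theorem nores {Ω : Type} [Field Ω] [CharZero Ω] [IsAlgClosed Ω] {I : Type}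
    {E M : IntermediateField ℚ Qb} {L : I → IntermediateField ℚ Qb} {m : ℕ}
    (hL : ArePairwise E L Set.univ) (hEM : E ≤ M)
    (hM : ∀ i z, z ∈ L i → z ∈ M → IsTotallyReal z) {S : I → Set Ω}
    (hS : ∀ i, ∀ α ∈ S i, IsGoodNumber p m ι (L i) α) {SZ : Set Ω}
    (hSZ : ∀ β ∈ SZ, HasSlopesIn p ι M β) :
    Pool.Agent.N876.FL.NoResF ((p ^ m : ℕ) : Ω) S SZ := by
  classical
  intro s hs α hα β hβ e N w hN heq
  have hp0 : (p : Ω) ≠ 0 := by exact_mod_cast (Fact.out : p.Prime).ne_zero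
  refine no_relation (ι := ι) (hL.mono (Set.subset_univ (s : Set I))) hEM
    (fun i _ => fun z h1 h2 => hM i z h1 h2) hs (m := m) (α := α)
    (fun i hi => hS i _ (hα i hi)) (hSZ β hβ) hN (B := N) (C := (m * N * w : ℕ) - (m * e * N : ℕ)) ?_
  rw [zpow_sub₀ hp0, zpow_natCast, zpow_natCast, eq_div_iff (pow_ne_zero _ hp0)]
  have h1 : ((∏ i ∈ s, α i) * ((p ^ m : ℕ) : Ω) ^ e * β) ^ N =
      (∏ i ∈ s, α i) ^ N * β ^ N * (p : Ω) ^ (m * e * N) := by
    push_cast
    rw [mul_pow, mul_pow, ← pow_mul, ← pow_mul, mul_right_comm]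
    congr 2
    ring
  rw [← h1, heq]
  push_cast
  rw [← pow_mul]
  congr 1
  ring

end num

section

variable {κ : Type} [Field κ] {𝒱 : VarClass κ} {A : TheoryData.{0, 0, 0} 𝒱 ℚ} [IsChow A]
  {K : Type} [Field K] [IsAlgClosed K] [CharZero K] {H : WeilTheoryData.{0, 0, 0} A K} [IsWeil H]
  {I : Type} {p m : ℕ} [Fact p.Prime] {ι : Qb →+* PadicAlgCl p} {E M : IntermediateField ℚ Qb}
  {L : I → IntermediateField ℚ Qb} {F : ∀ X : 𝒱.Obj, X ⟶ X} {X : I → 𝒱.Obj} {Z : 𝒱.Obj}

theorem one_lt_q (hm : 0 < m) : 1 < p ^ m := Nat.one_lt_pow hm.ne' (Fact.out : p.Prime).one_lt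

/-- **Families with slope fields.** -/
theorem cs_of (h : IsSlopeFamily p m ι E M L H F X Z)
    (hnil : ∀ L : List I, Nilpotence H (productOf X Z L)) :
    ∃ S : I → Set K, Pool.Agent.N876.CG.Cs H F (p ^ m) X Z S := by
  obtain ⟨hpair, hle, hmeet, hpos, hstd, hfrob, hprod, hgood, hpol, hbase⟩ := h
  choose T₀ hT₀ hTtop hTS using hgood
  have htw : ∀ L : List I, productOf X Z L = Pool.Agent.N876.CG.tw X Z L := by
    intro L
    induction L with
    | nil => rfl
    | cons i L ih => rw [productOf, Pool.Agent.N876.CG.tw, ih]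
  refine ⟨fun i => {α | Module.End.HasEigenvalue
      ((Pool.Agent.W484.CH.frob H (F (X i))).restrict (hT₀ i)) α}, ?_⟩
  exact
    { std := isStandard_bridge hstd
      one_lt := one_lt_q hpos
      frob := fun X => isFrobenius_bridge (hfrob X)
      prod := hprod
      cg := fun i => ⟨T₀ i, hT₀ i, hTtop i, fun α hα => hα⟩
      int := fun i α hα => (hTS i α hα).slopes.1
      intZ := fun β hβ => (hbase β hβ).1
      res := nores hpair hle hmeet (fun i α hα => hTS i α hα) fun β hβ => hbase β hβ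
      res1 := nores hpair hle hmeet (fun i α hα => hTS i α hα) fun β hβ => by
        rw [Set.mem_singleton_iff.1 hβ]
        exact hasSlopesIn_one M
      nil := fun L => by
        rw [← htw]
        exact nilpotence_bridge (hnil L) }

/-- **Families with slope fields**, relative version. -/
theorem cr_of (h : IsSlopeFamily p m ι E M L H F X Z) {χ : ℚ[X]}
    (hχ : ∀ ρ : K, aeval ρ χ = 0 → HasSlopesIn p ι M ρ) :
    ∃ S : I → Set K, Pool.Agent.N876.CG.Cr H F (p ^ m) X Z S {ρ | aeval ρ χ = 0} := by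
  obtain ⟨hpair, hle, hmeet, hpos, hstd, hfrob, hprod, hgood, hpol, hbase⟩ := h
  choose T₀ hT₀ hTtop hTS using hgood
  refine ⟨fun i => {α | Module.End.HasEigenvalue
      ((Pool.Agent.W484.CH.frob H (F (X i))).restrict (hT₀ i)) α}, ?_⟩
  exact
    { std := isStandard_bridge hstd
      one_lt := one_lt_q hpos
      frob := fun X => isFrobenius_bridge (hfrob X)
      prod := hprod
      cg := fun i => ⟨T₀ i, hT₀ i, hTtop i, fun α hα => hα⟩
      int := fun i α hα => (hTS i α hα).slopes.1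
      ne := fun i α hα => good_ne_zero (hTS i α hα)
      intZ := fun β hβ => (hbase β hβ).1
      res := nores hpair hle hmeet (fun i α hα => hTS i α hα) (by
        rintro γ ⟨β, ρ, hβ, hρ, rfl⟩
        exact (hbase β hβ).mul (hχ ρ hρ))
      res1 := nores hpair hle hmeet (fun i α hα => hTS i α hα) fun β hβ => by
        rw [Set.mem_singleton_iff.1 hβ]
        exact hasSlopesIn_one M }

end

end Pool.Agent.U173.PS
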