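import Pool.Agent.N876.CG.ModE
import Pool.Agent.U173.PS.Sys
import Pool.Agent.U231.FR.G3

/-!
# The generalised conjectures of Tate and Beilinson for products of varieties with slope fields which meet
# pairwise in totally real fields

The proof follows `N876/GB3/Proof` (helper876) and `U231/FR/G3` (helper231).
-/

set_option autoImplicit false

open Finset Polynomial CategoryTheory AlgebraicGeometry
open scoped TensorProduct

namespace Pool.Agent.U173.PS.G3

open Pool.Agent.H914 Pool.Agent.H914.VarClass Pool.Agent.H914.VarClass.Obj Pool.Agent.W492.BB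
  Pool.Agent.W484.CK Pool.Agent.U173.SL Pool.Agent.TH121.KT Pool.Agent.U231.FR.G3

theorem g3_core {κ : Type} [Field κ] {𝒱 : VarClass κ} {A : TheoryData.{0, 0, 0} 𝒱 ℚ} [IsChow A]
    {K : Type} [Field K] [IsAlgClosed K] [CharZero K] {H : WeilTheoryData.{0, 0, 0} A K} [IsWeil H]
    {I : Type} {q : ℕ} (hq0 : q ≠ 0) {F : ∀ X : 𝒱.Obj, X ⟶ X} {X : I → 𝒱.Obj} {Z : 𝒱.Obj}
    (hpol : ∀ i, IsPolarized H (X i)) {χ : ℚ[X]} (hχ0 : χ.coeff 0 ≠ 0) {S : I → Set K}
    (hsys : Pool.Agent.N876.CG.Cr H F q X Z S {ρ | aeval ρ χ = 0})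
    (U : Homology K) (hU : IsHomology U χ)
    (T : Theory A) (hT : IsTheory T) (hF : HasFrobenius T F q)
    (reg : ∀ X, T.M X → U.R H X) (hreg : IsRegulator T reg) (L : List I) (hL : L.Nodup) :
    Conclusions F q χ X Z T reg L := by
  have htw : ∀ L : List I, productOf X Z L = Pool.Agent.N876.CG.tw X Z L := by
    intro L
    induction L with
    | nil => rfl
    | cons i L ih => rw [productOf, Pool.Agent.N876.CG.tw, ih]
  have hdim : ∀ L : List I, dimension X L = Pool.Agent.N876.CG.dims X L := by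
    intro L
    induction L with
    | nil => rfl
    | cons i L ih => rw [dimension, Pool.Agent.N876.CG.dims, ih]
  have hdimV : ((productOf X Z L).dim : ℤ) = Z.dim + dimension X L := by
    clear hL
    induction L with
    | nil => simp [productOf, dimension]
    | cons i L ih =>
      rw [productOf, dimension, Obj.dim_prod]
      push_cast
      rw [ih]
      ring
  let T' : MotivicData A :=
    { M := T.M
      gr := T.gr
      act := fun {X Y} =>
        { toFun := fun c => (hT.right c).mk' _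
          map_add' := fun c d => LinearMap.ext fun z => (hT.left z).map_add c d
          map_smul' := fun a c => LinearMap.ext fun z => (hT.left z).map_smul a c } }
  have hT' : IsMotivic T' :=
    { app_mem := fun hc hz => hT.mem hc hz
      app_comp := fun c d z => hT.comp c d z
      app_id := fun z => hT.id z }
  let reg' : ∀ (X : 𝒱.Obj), (toCorr T').M X →ₗ[ℚ]
      (Pool.Agent.N876.CG.modT H U.M (Pool.Agent.N876.CG.part H U.W 0)).M X := fun X =>
    (show (toCorr T').M X →+
      (Pool.Agent.N876.CG.modT H U.M (Pool.Agent.N876.CG.part H U.W 0)).M X from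
        AddMonoidHom.mk' (M := T.M X) (G := U.R H X) (reg X)
          fun z w => hreg.add z w).toRatLinearMap
  let phi0 : ∀ (X : 𝒱.Obj), Module.End ℚ (T.M X) := fun X => (hF.linear X).mk' _
  let phi : ∀ (X : 𝒱.Obj), Module.End ℚ ((toCorr T').M X) := phi0
  have hpart : ∀ (X : 𝒱.Obj) (n : ℤ),
      U.degreePart H X (2 * n) = Pool.Agent.N876.CG.part H U.W 0 X n := fun X n => by
    unfold Homology.degreePart Pool.Agent.N876.CG.part
    simp only [add_zero]
    rfl
  have hdel : ∀ (X : 𝒱.Obj) (n : ℤ) (v : U.R H X),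
      Pool.Agent.N876.CG.Del (Pool.Agent.N876.CG.modT H U.M (Pool.Agent.N876.CG.part H U.W 0))
        (Pool.Agent.N876.CG.phiM (Pool.Agent.N876.CG.part H U.W 0) U.μ) F q X n v =
        U.defect F q n v := fun X n v =>
    Pool.Agent.N876.CG.Del_modT n v
  have hr : Pool.Agent.N876.CG.RegTo H F q U.W U.μ 0
      (toCorr T') phi reg' :=
    { corr := toCorr_isCorrTheory hT'
      comm := fun Γ z => hF.comm Γ z
      power := fun X n z hz => by
        have h1 := hF.power z hz
        exact sub_eq_zero.2 h1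
      mem := fun X n z hz => by
        rw [← hpart]
        exact hreg.mem z hz
      act := fun Γ z => hreg.corr
        (G := Pool.Agent.N876.CG.actM H U.M Γ)
          ⟨fun v w => map_add (Pool.Agent.N876.CG.actM H U.M Γ) v w, fun a x => rfl⟩ z
      frob := fun X z => hreg.frob
        (G := LinearMap.lTensor (H.A X) U.μ)
          ⟨fun v w => map_add (LinearMap.lTensor (H.A X) U.μ) v w, fun a x => rfl⟩ z }
  have hμ : aeval U.μ (χ.map (algebraMap ℚ K)) = 0 := by
    refine LinearMap.ext fun x => ?_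
    rw [Polynomial.aeval_endomorphism, Polynomial.sum_def,
      Polynomial.support_map_of_injective χ (algebraMap ℚ K).injective, LinearMap.zero_apply]
    refine Eq.trans (Finset.sum_congr rfl fun n _ => ?_) (hU.root x)
    rw [Polynomial.coeff_map, Module.End.pow_apply, eq_ratCast]
  have e2 : ∀ i l : ℤ, U.codim Z (i - l) = U.codim Z i + l := fun i l => by
    unfold Homology.codim
    ring
  -- the range of the codimensions
  have hrange : ∀ (i : ℤ) (P : ℤ → Prop),
      (∀ m : ℤ, U.codim (productOf X Z L) i - Pool.Agent.N876.CG.dims X L ≤ m →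
        m ≤ U.codim (productOf X Z L) i → P m) ↔
      ∀ l : ℕ, l ≤ dimension X L → P (U.codim Z i + l) := by
    intro i P
    rw [← hdim L]
    unfold Homology.codim
    rw [hdimV]
    constructor
    · intro h1 l hl
      exact h1 _ (by omega) (by omega)
    · intro h1 m h2 h3
      obtain ⟨l, hl⟩ := Int.eq_ofNat_of_zero_le
        (show 0 ≤ m - ((Z.dim : ℤ) + U.e - i) by omega)
      have h4 := h1 l (by omega)
      have h5 : (Z.dim : ℤ) + U.e - i + l = m := by omega
      rwa [h5] at h4
  have hOns : ∀ (V : 𝒱.Obj) (n : ℤ),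
      (∀ v ∈ U.degreePart H V (2 * n), U.defect F q n v = 0 →
        ∃ z ∈ T.gr V n, reg V z = v) ↔
      ∀ v ∈ (Pool.Agent.N876.CG.eigT
        (Pool.Agent.N876.CG.modT H U.M (Pool.Agent.N876.CG.part H U.W 0))
        (Pool.Agent.N876.CG.phiM (Pool.Agent.N876.CG.part H U.W 0) U.μ) F q).gr V n,
          ∃ z ∈ (toCorr T').gr V n, reg' V z = v := by
    intro V n
    rw [hpart]
    constructor
    · intro h1 v hv
      obtain ⟨h2, h3⟩ := Pool.Agent.N876.CG.mem_eigT.1 hv
      exact h1 v h2 ((hdel V n v).symm.trans h3)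
    · intro h1 v h2 h3
      exact h1 v (Pool.Agent.N876.CG.mem_eigT.2 ⟨h2, (hdel V n v).trans h3⟩)
  have hSns : ∀ (V : 𝒱.Obj) (n : ℤ),
      (∀ v ∈ U.degreePart H V (2 * n),
        U.defect F q n (U.defect F q n v) = 0 →
        U.defect F q n v = 0) ↔
      ∀ v ∈ (Pool.Agent.N876.CG.modT H U.M (Pool.Agent.N876.CG.part H U.W 0)).gr V n,
        Pool.Agent.N876.CG.Del (Pool.Agent.N876.CG.modT H U.M (Pool.Agent.N876.CG.part H U.W 0))
          (Pool.Agent.N876.CG.phiM (Pool.Agent.N876.CG.part H U.W 0) U.μ) F q V n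
          (Pool.Agent.N876.CG.Del
            (Pool.Agent.N876.CG.modT H U.M (Pool.Agent.N876.CG.part H U.W 0))
            (Pool.Agent.N876.CG.phiM (Pool.Agent.N876.CG.part H U.W 0) U.μ) F q
            V n v) = 0 →
        Pool.Agent.N876.CG.Del (Pool.Agent.N876.CG.modT H U.M (Pool.Agent.N876.CG.part H U.W 0))
          (Pool.Agent.N876.CG.phiM (Pool.Agent.N876.CG.part H U.W 0) U.μ) F q
          V n v = 0 := by
    intro V n
    rw [hpart]
    refine forall_congr' fun v => forall_congr' fun hv => ?_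
    rw [hdel, hdel]
    rfl
  have hsurj : ∀ i : ℤ, Pool.Agent.U231.FR.G3.Surjective reg F q (productOf X Z L) i ↔
      ∀ l : ℕ, l ≤ dimension X L → Pool.Agent.U231.FR.G3.Surjective reg F q Z (i - l) := by
    intro i
    have h1 := Pool.Agent.N876.CG.mod_onto hsys hpol hχ0 hμ hq0 hr hL
      (U.codim (productOf X Z L) i)
    unfold Pool.Agent.U231.FR.G3.Surjective
    simp only [e2]
    rw [hOns, ← hrange i fun m => ∀ v ∈ U.degreePart H Z (2 * m),
      U.defect F q m v = 0 → ∃ z ∈ T.gr Z m, reg Z z = v]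
    simp only [hOns]
    rw [← htw L] at h1
    exact h1
  have hsemi : ∀ i : ℤ, Semisimple U H F q (productOf X Z L) i ↔
      ∀ l : ℕ, l ≤ dimension X L → Semisimple U H F q Z (i - l) := by
    intro i
    have h1 := Pool.Agent.N876.CG.mod_ss hsys hpol hχ0 hμ hU.degree hq0 0 hL
      (U.codim (productOf X Z L) i)
    unfold Semisimple
    simp only [e2]
    rw [hSns, ← hrange i fun m => ∀ v ∈ U.degreePart H Z (2 * m),
      U.defect F q m (U.defect F q m v) = 0 →
        U.defect F q m v = 0]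
    simp only [hSns]
    rw [← htw L] at h1
    exact h1
  refine ⟨hsurj, hsemi, fun hnil hroot i => ?_⟩
  have hinj : Pool.Agent.U231.FR.G3.Injective reg (productOf X Z L) i ↔
      ∀ l : ℕ, l ≤ dimension X L → Pool.Agent.U231.FR.G3.Injective reg Z (i - l) := by
    have h1 := Pool.Agent.N876.CG.mod_inj (χ := χ) hsys hpol hχ0 hr
      (fun L => Pool.Agent.N876.CG.nilT_of (toCorr_isCorrTheory hT') (by
          rw [← htw L]; exact nilpotence_bridge (hnil L)))
      (fun X n z hz => by
        refine (Polynomial.aeval_endomorphism (R := ℚ) (M := T.M X) (phi0 X) z χ).trans ?_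
        refine Eq.trans (Finset.sum_congr rfl fun n _ => ?_) (hroot X n z hz)
        refine congrArg (fun y : T.M X => χ.coeff n • y) ?_
        exact Module.End.pow_apply (R := ℚ) (M := T.M X) (phi0 X) n z) hL
      (U.codim (productOf X Z L) i)
    unfold Pool.Agent.U231.FR.G3.Injective
    simp only [e2]
    rw [← hrange i fun m => ∀ z ∈ T.gr Z m, reg Z z = 0 → z = 0]
    rw [← htw L] at h1
    exact h1
  refine ⟨hinj, ?_⟩
  unfold Pool.Agent.U231.FR.G3.IsIso
  rw [hinj, hsurj]
  exact ⟨fun ⟨h3, h4⟩ l hl => ⟨h3 l hl, h4 l hl⟩,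
    fun h0 => ⟨fun l hl => (h0 l hl).1, fun l hl => (h0 l hl).2⟩⟩

theorem main {κ : Type} [Field κ] {𝒱 : VarClass κ} {A : TheoryData.{0, 0, 0} 𝒱 ℚ} [IsChow A]
    {K : Type} [Field K] [IsAlgClosed K] [CharZero K] {H : WeilTheoryData.{0, 0, 0} A K} [IsWeil H]
    {I : Type} {p m : ℕ} [Fact p.Prime] {ι : Qb →+* PadicAlgCl p} {E M : IntermediateField ℚ Qb}
    {Lf : I → IntermediateField ℚ Qb} {F : ∀ X : 𝒱.Obj, X ⟶ X} {X : I → 𝒱.Obj} {Z : 𝒱.Obj}
    (h : IsSlopeFamily p m ι E M Lf H F X Z) {χ : ℚ[X]} (hχ0 : χ.coeff 0 ≠ 0)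
    (hχ : ∀ ρ : K, aeval ρ χ = 0 → HasSlopesIn p ι M ρ) (U : Homology K) (hU : IsHomology U χ)
    (T : Theory A) (hT : IsTheory T) (hF : HasFrobenius T F (p ^ m))
    (reg : ∀ X, T.M X → U.R H X) (hreg : IsRegulator T reg) (L : List I) (hL : L.Nodup) :
    Conclusions F (p ^ m) χ X Z T reg L := by
  obtain ⟨S, hsys⟩ := cr_of h hχ
  exact g3_core (pow_ne_zero _ (Fact.out : p.Prime).ne_zero) h.polarized hχ0 hsys U hU T hT hF reg
    hreg L hL

end Pool.Agent.U173.PS.G3
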