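import Pool.Agent.N876.CG.GenT
import Pool.Agent.U173.PS.Sys
import Pool.Agent.U231.FR.R8

/-!
# The conjectures of Beilinson and Tate for products of varieties with slope fields which meet pairwise
# in totally real fields

The proof follows `N876/R816/Proof` (helper876) and `U231/FR/R8` (helper231).
-/

set_option autoImplicit false

open Finset Polynomial CategoryTheory AlgebraicGeometry

namespace Pool.Agent.U173.PS

open Pool.Agent.H914 Pool.Agent.H914.VarClass Pool.Agent.H914.VarClass.Obj Pool.Agent.W492.BB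
  Pool.Agent.W484.CK Pool.Agent.U173.SL Pool.Agent.TH121.KT Pool.Agent.U231.FR.R8

theorem r8_main {κ : Type} [Field κ] {𝒱 : VarClass κ} {A : TheoryData.{0, 0, 0} 𝒱 ℚ} [IsChow A]
    {K : Type} [Field K] [IsAlgClosed K] [CharZero K] {H : WeilTheoryData.{0, 0, 0} A K} [IsWeil H]
    {I : Type} {p m : ℕ} [Fact p.Prime] {ι : Qb →+* PadicAlgCl p} {E M : IntermediateField ℚ Qb}
    {L : I → IntermediateField ℚ Qb} {F : ∀ X : 𝒱.Obj, X ⟶ X} {X : I → 𝒱.Obj} {Z : 𝒱.Obj}
    (h : IsSlopeFamily p m ι E M L H F X Z) {χ : ℚ[X]} (hχ0 : χ.coeff 0 ≠ 0)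
    (hχ : ∀ ρ : K, aeval ρ χ = 0 → HasSlopesIn p ι M ρ) (T R : MotivicData A)
    (φT : ∀ X, T.M X →ₗ[ℚ] T.M X) (hT : IsCycleTheory T φT F (p ^ m))
    (φ : ∀ X, R.M X →ₗ[ℚ] R.M X) (hR : IsMixedTheory H R φ χ)
    (reg : ∀ X, T.M X →ₗ[ℚ] R.M X) (hreg : IsRegulator T R φT φ reg) (l : List I)
    (hl : l.Nodup) : Conclusions H F (p ^ m) χ X Z φT φ reg l := by
  have hpol := h.polarized
  have hprod := h.product
  obtain ⟨S, hsys⟩ := cr_of h hχ
  have htw : ∀ l : List I, productOf X Z l = Pool.Agent.N876.CG.tw X Z l := by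
    intro l
    induction l with
    | nil => rfl
    | cons i l ih => rw [productOf, Pool.Agent.N876.CG.tw, ih]
  have hdim : ∀ l : List I, dimension X l = Pool.Agent.N876.CG.dims X l := by
    intro l
    induction l with
    | nil => rfl
    | cons i l ih => rw [dimension, Pool.Agent.N876.CG.dims, ih]
  have hq0 : p ^ m ≠ 0 := pow_ne_zero _ (Fact.out : p.Prime).ne_zero
  have hFr : ∀ X, Pool.Agent.W484.CH.IsFrobenius A (F X) (p ^ m) := hsys.frob
  have hrel : ∀ (R : MotivicData A) (φ : ∀ X, R.M X →ₗ[ℚ] R.M X) (χ : ℚ[X]),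
      IsMixedTheory H R φ χ → Pool.Agent.N876.CG.RelTheory
        (Pool.Agent.N876.CG.genT (toCorr R) φ F (p ^ m)) φ F (p ^ m) χ :=
    fun R φ χ hR => Pool.Agent.N876.CG.genT_rel (toCorr_isCorrTheory hR.motivic) hR.comm hq0 hFr
      hprod hsys.std (fun X n t ht => hR.root ht)
  have hnil' : ∀ (R : MotivicData A) (φ : ∀ X, R.M X →ₗ[ℚ] R.M X) (χ : ℚ[X]),
      IsMixedTheory H R φ χ → ∀ V, Pool.Agent.N876.CG.NilT H
        (Pool.Agent.N876.CG.genT (toCorr R) φ F (p ^ m)) V := by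
    intro R φ χ hR V Γ hΓ h0
    refine ⟨1, ?_⟩
    rw [pow_one]
    exact LinearMap.ext fun r => hR.homological Γ hΓ h0 r
  -- invariant elements are generalized eigenvectors
  have hinv : ∀ (V : 𝒱.Obj) (n : ℤ) (r : R.M V), R.Deg n r →
      defect R φ F (p ^ m) V n r = 0 →
      r ∈ (Pool.Agent.N876.CG.genT (toCorr R) φ F (p ^ m)).gr V n := by
    intro V n r hr h0
    refine Pool.Agent.N876.CG.mem_genT.2 ⟨hr, 1, ?_⟩
    rw [pow_one]
    exact h0
  -- the image of the regulator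
  have himg : ∀ (V : 𝒱.Obj) (n : ℤ) (t : T.M V), T.Deg n t →
      defect R φ F (p ^ m) V n (reg V t) = 0 := by
    intro V n t ht
    have h1 : defect R φ F (p ^ m) V n (reg V t) = reg V (defect T φT F (p ^ m) V n t) := by
      rw [defect, defect, map_sub, map_smul, hreg.corr, hreg.frob]
    rw [h1, hT.power ht, map_zero]
  have hS : ∀ (V : 𝒱.Obj) (n : ℤ), IsOnto reg φ F (p ^ m) V n ∧
      IsSemisimpleIn R φ F (p ^ m) V n ↔
      ∀ r ∈ (Pool.Agent.N876.CG.genT (toCorr R) φ F (p ^ m)).gr V n,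
        ∃ t ∈ (toCorr T).gr V n, reg V t = r := by
    intro V n
    have hss := Pool.Agent.N876.CG.ss_iff (toCorr_isCorrTheory hR.motivic) hFr
      (fun X n t ht => hR.degree ht) V n
    constructor
    · rintro ⟨h1, h2⟩ r hr
      exact h1 r (Pool.Agent.N876.CG.mem_genT.1 hr).1 (hss.1 h2 r hr)
    · intro h0
      refine ⟨fun r hr hi => h0 r (hinv V n r hr hi), hss.2 fun r hr => ?_⟩
      obtain ⟨t, ht, rfl⟩ := h0 r hr
      exact himg V n t ht
  have hnat : Pool.Agent.N876.CG.Nat' (toCorr T)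
      (Pool.Agent.N876.CG.genT (toCorr R) φ F (p ^ m)) reg :=
    ⟨fun {V n t} ht => hinv V n _ (hreg.mem ht) (himg V n t ht), hreg.corr⟩
  have hcorrT := toCorr_isCorrTheory hT.motivic
  have hcorrR : Pool.Agent.W484.CH.IsCorrTheory
      (Pool.Agent.N876.CG.genT (toCorr R) φ F (p ^ m)) := (hrel R φ χ hR).corr
  have htate : ∀ n : ℤ, IsOnto reg φ F (p ^ m) (productOf X Z l) n ∧
      IsSemisimpleIn R φ F (p ^ m) (productOf X Z l) n ↔
      ∀ r : ℤ, n - dimension X l ≤ r → r ≤ n → IsOnto reg φ F (p ^ m) Z r ∧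
        IsSemisimpleIn R φ F (p ^ m) Z r := by
    intro n
    rw [hS]
    simp only [hS]
    rw [htw l, hdim l]
    exact hsys.induct hpol (fun V n =>
        ∀ r ∈ (Pool.Agent.N876.CG.genT (toCorr R) φ F (p ^ m)).gr V n,
          ∃ t ∈ (toCorr T).gr V n, reg V t = r)
      (Pool.Agent.N876.CG.genT (toCorr R) φ F (p ^ m)) φ χ hχ0 (fun ρ hρ => hρ)
      (hrel R φ χ hR) (fun L => hnil' R φ χ hR _) (fun i V J _ deg D E h1 h2 n =>
        Pool.Agent.N876.CG.surj_deg h1 hcorrT hcorrR hnat h2 n) hl n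
  refine ⟨htate, fun hnil hroot n => ?_⟩
  · have hinj : IsInjective reg (productOf X Z l) n ↔
        ∀ r : ℤ, n - dimension X l ≤ r → r ≤ n → IsInjective reg Z r := by
      rw [htw l, hdim l]
      exact hsys.induct hpol (fun V n => IsInjective reg V n) (toCorr T) φT χ hχ0 (fun ρ hρ => hρ)
        { corr := hcorrT
          comm := hT.comm
          power := fun X n t ht => ⟨1, by
            rw [pow_one]
            exact hT.power ht⟩
          poly := fun X n t ht => hroot ht }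
        (fun l => Pool.Agent.N876.CG.nilT_of hcorrT (by
          rw [← htw l]; exact nilpotence_bridge (hnil l)))
        (fun i V J _ deg D E h1 h2 n =>
          Pool.Agent.N876.CG.inj_deg h1 hcorrT hnat h2 n) hl n
    rw [hinj, htate n]
    exact ⟨fun ⟨h1, h2⟩ r hl1 hl2 => ⟨h1 r hl1 hl2, h2 r hl1 hl2⟩,
      fun h0 => ⟨fun r hl1 hl2 => (h0 r hl1 hl2).1, fun r hl1 hl2 => (h0 r hl1 hl2).2⟩⟩

end Pool.Agent.U173.PS
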